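import Pool.Agent.Helper84_TMP.Stmt

set_option autoImplicit false

open scoped BigOperators

namespace Pool.Agent.TMP.H19

open Pool.Agent.DEN

section
variable {r : ℕ} {C : Matrix (Fin r) (Fin r) ℤ} {K : Type} [Field K]

theorem inv_oo {k : XX C K → XX C K → ℂ} (hk : IsKer k) (g : grp C K) (x : XX C K) :
    k (g⁻¹ • x) (oo C K) = k x (g • oo C K) := by
  have := hk.inv g (g⁻¹ • x) (oo C K)
  rw [smul_inv_smul] at this
  exact this.symm

theorem inv_oo' {k : XX C K → XX C K → ℂ} (hk : IsKer k) (g : grp C K) :
    k (g • oo C K) (oo C K) = k (oo C K) (g⁻¹ • oo C K) := by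
  have := hk.inv g⁻¹ (g • oo C K) (oo C K)
  rw [inv_smul_smul] at this
  exact this.symm

/-- The columns of a kernel are finite. -/
theorem col (hfin : DEN.TMP.HCo (maxK C K)) {k : XX C K → XX C K → ℂ} (hk : IsKer k)
    (y : XX C K) : {x | k x y ≠ 0}.Finite := by
  obtain ⟨g, rfl⟩ := exists_smul y
  have key : {x : XX C K | k x (oo C K) ≠ 0}.Finite := by
    have hsub : {x : XX C K | k x (oo C K) ≠ 0} ⊆
        ⋃ z ∈ {z : XX C K | k (oo C K) z ≠ 0},
          {w : XX C K | ∃ l ∈ maxK C K, w = QuotientGroup.mk (l * (z.out)⁻¹)} := by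
      intro x hx
      obtain ⟨h, rfl⟩ := exists_smul x
      rw [Set.mem_setOf_eq, inv_oo' hk] at hx
      refine Set.mem_biUnion (x := h⁻¹ • oo C K) hx ?_
      set z : XX C K := h⁻¹ • oo C K with hz
      have hz' : (QuotientGroup.mk z.out : XX C K) = QuotientGroup.mk h⁻¹ := by
        rw [QuotientGroup.out_eq', hz]
        unfold oo
        rw [smul_pt, mul_one]
        rfl
      have hmem : (z.out)⁻¹ * h⁻¹ ∈ maxK C K := QuotientGroup.eq.mp hz'
      refine ⟨h * z.out, ?_, ?_⟩
      · have := (maxK C K).inv_mem hmem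
        simpa [mul_inv_rev] using this
      · rw [mul_assoc, mul_inv_cancel, mul_one]
        unfold oo
        rw [smul_pt, mul_one]
        rfl
    refine Set.Finite.subset (Set.Finite.biUnion (hk.fin _) fun z _ => ?_) hsub
    exact hfin _
  have h2 : {x : XX C K | k x (g • oo C K) ≠ 0} ⊆ (fun x => g • x) '' {x : XX C K | k x (oo C K) ≠ 0} := by
    intro x hx
    refine ⟨g⁻¹ • x, ?_, smul_inv_smul g x⟩
    rw [Set.mem_setOf_eq, inv_oo hk]
    exact hx
  exact (key.image _).subset h2

theorem kmul_ker {k k' : XX C K → XX C K → ℂ} (hk : IsKer k) (hk' : IsKer k') :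
    IsKer (kmul k k') := by
  constructor
  · intro g x z
    unfold kmul
    have h1 : ∑ᶠ y, k (g • x) y * k' y (g • z) =
        ∑ᶠ y, k (g • x) (MulAction.toPerm g y) * k' (MulAction.toPerm g y) (g • z) :=
      (finsum_comp_equiv (MulAction.toPerm g) (f := fun y => k (g • x) y * k' y (g • z))).symm
    rw [h1]
    refine finsum_congr fun y => ?_
    rw [MulAction.toPerm_apply, hk.inv, hk'.inv]
  · intro x
    refine Set.Finite.subset (Set.Finite.biUnion (hk.fin x) fun y _ => hk'.fin y) ?_
    intro z hz
    rw [Set.mem_setOf_eq] at hz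
    unfold kmul at hz
    have : ∃ y, k x y * k' y z ≠ 0 := by
      by_contra hcon
      push Not at hcon
      apply hz
      rw [show (fun y => k x y * k' y z) = fun _ => (0 : ℂ) from funext hcon]
      exact finsum_zero
    obtain ⟨y, hy⟩ := this
    exact Set.mem_biUnion (x := y) (left_ne_zero_of_mul hy) (right_ne_zero_of_mul hy)

end

theorem ker (hfin : DEN.TMP.KfinStmt) : KerStmt := by
  intro r C hC K _ _
  have hf := hfin r C hC K
  refine ⟨fun k hk y => col hf hk y, fun k k' hk hk' => kmul_ker hk hk', ?_, ?_, ?_, ?_, ?_, ?_⟩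
  · intro k hk
    constructor
    · intro g x y
      unfold kst
      rw [hk.inv]
    · intro x
      refine (col hf hk x).subset ?_
      intro y hy
      unfold kst at hy
      rw [Set.mem_setOf_eq] at hy ⊢
      intro h0
      apply hy
      rw [h0, map_zero]
  · intro k k' hk hk'
    constructor
    · intro g x y
      rw [Pi.add_apply, Pi.add_apply, Pi.add_apply, Pi.add_apply, hk.inv, hk'.inv]
    · intro x
      refine ((hk.fin x).union (hk'.fin x)).subset ?_
      intro y hy
      rw [Set.mem_setOf_eq, Pi.add_apply, Pi.add_apply] at hy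
      by_contra hcon
      rw [Set.mem_union, Set.mem_setOf_eq, Set.mem_setOf_eq] at hcon
      push Not at hcon
      apply hy
      rw [hcon.1, hcon.2, add_zero]
  · intro c k hk
    constructor
    · intro g x y
      rw [Pi.smul_apply, Pi.smul_apply, Pi.smul_apply, Pi.smul_apply, hk.inv]
    · intro x
      refine (hk.fin x).subset ?_
      intro y hy
      rw [Set.mem_setOf_eq, Pi.smul_apply, Pi.smul_apply] at hy
      exact fun h0 => hy (by rw [h0, smul_zero])
  · constructor
    · intro g x y
      unfold kone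
      have : (g • x = g • y) ↔ x = y := smul_left_cancel_iff g
      by_cases h : x = y
      · rw [if_pos h, if_pos (this.mpr h)]
      · rw [if_neg h, if_neg (fun h' => h (this.mp h'))]
    · intro x
      refine (Set.finite_singleton x).subset ?_
      intro y hy
      rw [Set.mem_setOf_eq] at hy
      unfold kone at hy
      by_contra hne
      exact hy (if_neg (fun h => hne (by rw [Set.mem_singleton_iff]; exact h.symm)))
  · intro k hk
    unfold kmul kst
    have hs : (Function.support fun y => ‖k (oo C K) y‖ ^ 2).Finite := by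
      refine (hk.fin (oo C K)).subset ?_
      intro y hy
      rw [Function.mem_support] at hy
      rw [Set.mem_setOf_eq]
      intro h0
      apply hy
      rw [h0, norm_zero]
      norm_num
    have h1 := Complex.ofRealHom.toAddMonoidHom.map_finsum hs
    have h2 : ((∑ᶠ y, ‖k (oo C K) y‖ ^ 2 : ℝ) : ℂ) =
        ∑ᶠ y, (((‖k (oo C K) y‖ ^ 2 : ℝ)) : ℂ) := h1
    rw [h2]
    refine finsum_congr fun y => ?_
    rw [Complex.mul_conj, Complex.normSq_eq_norm_sq]
  · intro k hk g hg y
    have h1 := hk.inv g (oo C K) y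
    rw [(mem_maxK_iff g).mp hg] at h1
    exact h1

end Pool.Agent.TMP.H19
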